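import Pool.Agent.Helper38.EC.Goals

set_option autoImplicit false

open MeasureTheory Filter Topology Set Complex

namespace Pool.Agent.Helper9.EC.I_HREG

open EC237.PI

lemma Qd_slit {z : ℂ} (hz : z ∈ Qd) : z ∈ slitPlane := by
  obtain ⟨h1, h2, h3⟩ := hz
  rw [mem_slitPlane_iff]
  by_cases h : 0 < z.re
  · left; exact h
  · right
    intro h4
    apply h3
    apply Complex.ext
    · simp only [zero_re]; linarith
    · simpa using h4

lemma Qo_sub : Qo ⊆ Qd := by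
  rintro z ⟨h1, h2⟩
  refine ⟨h1.le, h2.le, ?_⟩
  rintro rfl
  simp at h1

lemma Qo_open : IsOpen Qo := by
  have h1 : IsOpen {z : ℂ | 0 < z.re} := isOpen_lt continuous_const continuous_re
  have h2 : IsOpen {z : ℂ | z.im < 0} := isOpen_lt continuous_im continuous_const
  have : Qo = {z : ℂ | 0 < z.re} ∩ {z : ℂ | z.im < 0} := rfl
  rw [this]
  exact h1.inter h2

/-- the dominating function -/
noncomputable def Gd (η : ℝ) : ℝ := if η ≤ 1 then η ^ (-(3 / 4) : ℝ) else η ^ (-2 : ℝ)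

lemma Gd_int : IntegrableOn Gd (Ioi 0) := by
  have hu : Ioi (0:ℝ) = Ioc 0 1 ∪ Ioi 1 := (Ioc_union_Ioi_eq_Ioi zero_le_one).symm
  rw [hu]
  refine IntegrableOn.union ?_ ?_
  · have h := (intervalIntegral.intervalIntegrable_rpow' (a := 0) (b := 1)
      (r := (-(3 / 4) : ℝ)) (by norm_num))
    rw [intervalIntegrable_iff_integrableOn_Ioc_of_le zero_le_one] at h
    refine h.congr_fun ?_ measurableSet_Ioc
    intro x hx
    simp only [Gd]
    rw [if_pos hx.2]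
  · have h := integrableOn_Ioi_rpow_of_lt (a := (-2:ℝ)) (by norm_num) (c := 1) (by norm_num)
    refine h.congr_fun ?_ measurableSet_Ioi
    intro x hx
    simp only [Gd]
    rw [if_neg (not_le.mpr hx)]

lemma shift_mem {t : ℂ} (ht : t ∈ Qd) {η : ℝ} (hη : 0 < η) :
    t - I * η ∈ Qd ∧ (t - I * η).re = t.re ∧ ‖t‖ ≤ ‖t - I * η‖ ∧ η ≤ ‖t - I * η‖ := by
  obtain ⟨h1, h2, h3⟩ := ht
  have hre : (t - I * η).re = t.re := by simp
  have him : (t - I * η).im = t.im - η := by simp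
  refine ⟨⟨by rw [hre]; exact h1, by rw [him]; linarith, ?_⟩, hre, ?_, ?_⟩
  · intro h
    have := congrArg Complex.im h
    rw [him] at this
    simp at this
    linarith
  · rw [← Real.sqrt_sq (norm_nonneg t), ← Real.sqrt_sq (norm_nonneg (t - I * η))]
    apply Real.sqrt_le_sqrt
    rw [← Complex.normSq_eq_norm_sq, ← Complex.normSq_eq_norm_sq, Complex.normSq_apply,
      Complex.normSq_apply, hre, him]
    nlinarith
  · have := Complex.abs_im_le_norm (t - I * η)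
    rw [him] at this
    have h4 : η ≤ |t.im - η| := by
      rw [abs_of_neg (by linarith)]
      linarith
    linarith

lemma GV_bound {f : ℂ → ℂ} {C : ℝ} (hC : 0 ≤ C)
    (hA : ∀ z ∈ Qd, z.re ≤ 1 → 1 ≤ ‖z‖ → ‖f z‖ ≤ C / ‖z‖ ^ 2)
    (hB : ∀ z ∈ Qd, ‖z‖ ≤ 1 → ‖f z‖ ≤ C * ‖z‖ ^ (-(5 / 4) : ℝ)) :
    ∀ t ∈ Qd, ‖t‖ ≤ 1 →
      ‖GV f t‖ ≤ (C * ∫ η in Ioi (0:ℝ), Gd η) * ‖t‖ ^ (-(1 / 2) : ℝ) := by
  intro t ht ht1
  have ht0 : 0 < ‖t‖ := norm_pos_iff.mpr ht.2.2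
  have hone : 1 ≤ ‖t‖ ^ (-(1 / 2) : ℝ) :=
    Real.one_le_rpow_of_pos_of_le_one_of_nonpos ht0 ht1 (by norm_num)
  have hint : IntegrableOn (fun η => (C * ‖t‖ ^ (-(1 / 2) : ℝ)) * Gd η) (Ioi 0) :=
    Gd_int.const_mul _
  have hle : ∀ᵐ η : ℝ ∂(volume.restrict (Ioi (0:ℝ))),
      ‖f (t - I * (η:ℂ))‖ ≤ (C * ‖t‖ ^ (-(1 / 2) : ℝ)) * Gd η := by
    refine (ae_restrict_iff' measurableSet_Ioi).mpr (Eventually.of_forall ?_)
    intro η hη
    have hη' : 0 < η := hη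
    obtain ⟨hu, hure, hut, huη⟩ := shift_mem ht hη'
    set u := t - I * η with hudef
    have hu0 : 0 < ‖u‖ := lt_of_lt_of_le ht0 hut
    have hre1 : u.re ≤ 1 := by
      rw [hure]
      exact (Complex.re_le_norm t).trans ht1
    simp only [Gd]
    split_ifs with h1
    · rcases le_total ‖u‖ 1 with h2 | h2
      · refine (hB u hu h2).trans ?_
        rw [mul_assoc]
        refine mul_le_mul_of_nonneg_left ?_ hC
        have e1 : ‖u‖ ^ (-(5 / 4) : ℝ) = ‖u‖ ^ (-(1 / 2) : ℝ) * ‖u‖ ^ (-(3 / 4) : ℝ) := by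
          rw [← Real.rpow_add hu0]; norm_num
        rw [e1]
        refine mul_le_mul ?_ ?_ (Real.rpow_nonneg hu0.le _) (Real.rpow_nonneg ht0.le _)
        · exact Real.rpow_le_rpow_of_nonpos ht0 hut (by norm_num)
        · exact Real.rpow_le_rpow_of_nonpos hη' huη (by norm_num)
      · refine (hA u hu hre1 h2).trans ?_
        have e2 : C / ‖u‖ ^ 2 ≤ C := by
          apply div_le_self hC
          nlinarith
        have e3 : 1 ≤ η ^ (-(3 / 4) : ℝ) :=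
          Real.one_le_rpow_of_pos_of_le_one_of_nonpos hη' h1 (by norm_num)
        calc C / ‖u‖ ^ 2 ≤ C := e2
          _ = C * 1 * 1 := by ring
          _ ≤ C * ‖t‖ ^ (-(1 / 2) : ℝ) * η ^ (-(3 / 4) : ℝ) := by gcongr
    · have h1' : 1 < η := not_le.mp h1
      have h2 : 1 ≤ ‖u‖ := (h1'.le).trans huη
      refine (hA u hu hre1 h2).trans ?_
      have e4 : η ^ (-2 : ℝ) = 1 / η ^ 2 := by
        rw [Real.rpow_neg hη'.le]
        norm_num
      rw [e4]
      calc C / ‖u‖ ^ 2 ≤ C / η ^ 2 := by gcongr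
        _ = C * 1 * (1 / η ^ 2) := by ring
        _ ≤ C * ‖t‖ ^ (-(1 / 2) : ℝ) * (1 / η ^ 2) := by gcongr
  have h := norm_integral_le_of_norm_le hint hle
  rw [integral_const_mul] at h
  have h5 : ‖GV f t‖ = ‖∫ η in Ioi (0:ℝ), f (t - I * η)‖ := by
    simp [GV]
  rw [h5]
  refine h.trans (le_of_eq ?_)
  ring

theorem thm (hHEX : G_HEX) (hRP : G_RP) (hVPB : G_VPB) (hFB : G_FB) (hKSM : G_KSM)
    (hSERA : G_SERA) (hWR : G_WR) : G_HREG := by
  intro p hp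
  have hadm : ∀ k : ℕ, VAdm (fb (6 - k) p) := fun k => hRP.1 (6 - k) (by omega) p hp
  have hIc : Differentiable ℂ Ic := hSERA.1
  have hKc : ∀ z ∈ slitPlane, DifferentiableAt ℂ Kc z := fun z hz => (hWR.1 z hz).1
  have hKcont : ContinuousOn Kc Qd := fun z hz =>
    (hKc z (Qd_slit hz)).continuousAt.continuousWithinAt
  have hKdiff : DifferentiableOn ℂ Kc Qo := fun z hz =>
    (hKc z (Qd_slit (Qo_sub hz))).differentiableWithinAt
  refine ⟨?_, ?_, ?_⟩
  · have hc : ContinuousOn (fun t => ∑ k ∈ Finset.range 7, (Nat.choose 6 k : ℂ) * (-1) ^ k *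
        Ic t ^ (6 - k) * Kc t ^ k * GV (fb (6 - k) p) t) Qd := by
      refine continuousOn_finsetSum _ fun k _ => ?_
      exact ((continuousOn_const.mul (hIc.continuous.continuousOn.pow _)).mul
        (hKcont.pow _)).mul (hVPB _ (hadm k)).1
    exact hc.congr fun t ht => hHEX p hp t ht
  · have hd : DifferentiableOn ℂ (fun t => ∑ k ∈ Finset.range 7, (Nat.choose 6 k : ℂ) * (-1) ^ k *
        Ic t ^ (6 - k) * Kc t ^ k * GV (fb (6 - k) p) t) Qo := by
      refine DifferentiableOn.fun_sum fun k _ => ?_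
      have hG : DifferentiableOn ℂ (GV (fb (6 - k) p)) Qo := fun t ht =>
        ((hVPB _ (hadm k)).2 t ht).differentiableAt.differentiableWithinAt
      exact (((differentiableOn_const _).mul (hIc.differentiableOn.pow _)).mul
        (hKdiff.pow _)).mul hG
    exact hd.congr fun t ht => hHEX p hp t (Qo_sub ht)
  · obtain ⟨C, hC0, hC⟩ := hFB
    obtain ⟨D, hD⟩ := hKSM
    -- uniform constant for `fb`
    set C' : ℝ := C * Real.exp 6 with hC'
    have hC'0 : 0 ≤ C' := by positivity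
    have hCC' : C ≤ C' := by
      rw [hC']
      have : 1 ≤ Real.exp 6 := Real.one_le_exp (by norm_num)
      nlinarith
    have hGV : ∀ k : ℕ, ∀ t ∈ Qd, ‖t‖ ≤ 1 →
        ‖GV (fb (6 - k) p) t‖ ≤ (C' * ∫ η in Ioi (0:ℝ), Gd η) * ‖t‖ ^ (-(1 / 2) : ℝ) := by
      intro k
      obtain ⟨-, -, hb1, hb2⟩ := hC (6 - k) (by omega) p hp
      refine GV_bound hC'0 ?_ ?_
      · intro z hz hre h1
        refine (hb1 z hz h1).trans ?_
        have hz0 : 0 ≤ z.re := hz.1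
        have e : Real.exp ((6 - 2 * ((6 - k : ℕ):ℝ)) * z.re) ≤ Real.exp 6 := by
          apply Real.exp_le_exp.mpr
          have : (0:ℝ) ≤ ((6 - k : ℕ):ℝ) := Nat.cast_nonneg _
          nlinarith
        rw [hC']
        gcongr
      · intro z hz h1
        have hz0 : 0 < ‖z‖ := norm_pos_iff.mpr hz.2.2
        rcases hp with rfl | rfl
        · refine (hb2 z hz h1).1.trans ?_
          have : 1 ≤ ‖z‖ ^ (-(5 / 4) : ℝ) :=
            Real.one_le_rpow_of_pos_of_le_one_of_nonpos hz0 h1 (by norm_num)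
          calc C ≤ C' := hCC'
            _ = C' * 1 := by ring
            _ ≤ C' * ‖z‖ ^ (-(5 / 4) : ℝ) := by gcongr
        · refine (hb2 z hz h1).2.trans ?_
          have : 0 ≤ ‖z‖ ^ (-(5 / 4) : ℝ) := Real.rpow_nonneg hz0.le _
          gcongr
    set M : ℝ := max D 0 with hM
    have hM0 : 0 ≤ M := le_max_right _ _
    set I0 : ℝ := ∫ η in Ioi (0:ℝ), Gd η with hI0
    have hI00 : 0 ≤ I0 := by
      refine setIntegral_nonneg measurableSet_Ioi fun η hη => ?_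
      simp only [Gd]
      have : (0:ℝ) < η := hη
      split_ifs <;> positivity
    refine ⟨∑ k ∈ Finset.range 7, (Nat.choose 6 k : ℝ) * 2 ^ (6 - k) * M ^ k * (C' * I0), ?_⟩
    intro t ht ht1
    have ht0 : 0 < ‖t‖ := norm_pos_iff.mpr ht.2.2
    obtain ⟨hI, -, hK, -⟩ := hD t ht ht1
    rw [hHEX p hp t ht, Finset.sum_mul]
    refine norm_sum_le_of_le _ fun k hk => ?_
    have hk6 : k ≤ 6 := by
      have := Finset.mem_range.mp hk
      omega
    rw [norm_mul, norm_mul, norm_mul, norm_mul, norm_pow, norm_pow, norm_pow]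
    have hc : ‖((Nat.choose 6 k : ℕ) : ℂ)‖ = (Nat.choose 6 k : ℝ) := by
      simp
    rw [hc, norm_neg, norm_one, one_pow, mul_one]
    have hK' : ‖Kc t‖ ≤ M * ‖t‖ ^ (-(1 / 24) : ℝ) := by
      refine hK.trans ?_
      have : 0 ≤ ‖t‖ ^ (-(1 / 24) : ℝ) := Real.rpow_nonneg ht0.le _
      have h2 : D ≤ M := le_max_left _ _
      gcongr
    have hKk : ‖Kc t‖ ^ k ≤ M ^ k * ‖t‖ ^ (-(1 / 4) : ℝ) := by
      calc ‖Kc t‖ ^ k ≤ (M * ‖t‖ ^ (-(1 / 24) : ℝ)) ^ k := by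
            gcongr
        _ = M ^ k * (‖t‖ ^ (-(1 / 24) : ℝ)) ^ k := by rw [mul_pow]
        _ ≤ M ^ k * ‖t‖ ^ (-(1 / 4) : ℝ) := by
            refine mul_le_mul_of_nonneg_left ?_ (pow_nonneg hM0 _)
            rw [← Real.rpow_natCast, ← Real.rpow_mul ht0.le]
            apply Real.rpow_le_rpow_of_exponent_ge ht0 ht1
            have : (k:ℝ) ≤ 6 := by exact_mod_cast hk6
            linarith
    have hIk : ‖Ic t‖ ^ (6 - k) ≤ 2 ^ (6 - k) := by gcongr
    have hG := hGV k t ht ht1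
    have e5 : ‖t‖ ^ (-(3 / 4) : ℝ) = ‖t‖ ^ (-(1 / 4) : ℝ) * ‖t‖ ^ (-(1 / 2) : ℝ) := by
      rw [← Real.rpow_add ht0]; norm_num
    rw [e5]
    calc (Nat.choose 6 k : ℝ) * ‖Ic t‖ ^ (6 - k) * ‖Kc t‖ ^ k * ‖GV (fb (6 - k) p) t‖
        ≤ (Nat.choose 6 k : ℝ) * 2 ^ (6 - k) * (M ^ k * ‖t‖ ^ (-(1 / 4) : ℝ)) *
          ((C' * I0) * ‖t‖ ^ (-(1 / 2) : ℝ)) := by gcongr
      _ = (Nat.choose 6 k : ℝ) * 2 ^ (6 - k) * M ^ k * (C' * I0) *
          (‖t‖ ^ (-(1 / 4) : ℝ) * ‖t‖ ^ (-(1 / 2) : ℝ)) := by ring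

end Pool.Agent.Helper9.EC.I_HREG
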